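import Pool.Agent.H174.CC.Final

/-!
# MP_cfec29_an: a convex-cyclic operator `T` on a complex Hilbert space with `-T` not convex-cyclic

Write `S` for the unilateral shift. The operator is `T = -16 - (i / 4) (1 - S)`.
-/

namespace Pool.Agent.Results.MP_cfec29_an.NegativeNotConvexCyclic

open Pool.Agent.H174.CC

/-- `T` is convex-cyclic: for some vector `x` the convex hull of the orbit
`x, T x, T ^ 2 x, …` is dense in `H`. -/
def IsConvexCyclic {H : Type*} [NormedAddCommGroup H] [InnerProductSpace ℂ H]
    (T : H →L[ℂ] H) : Prop :=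
  ∃ x : H, Dense (convexHull ℝ (Set.range fun n : ℕ => (T ^ n) x))

/-- There is a convex-cyclic bounded operator `T` on `H` such that `-T` is not convex-cyclic. -/
def HasExample (H : Type*) [NormedAddCommGroup H] [InnerProductSpace ℂ H] : Prop :=
  ∃ T : H →L[ℂ] H, IsConvexCyclic T ∧ ¬ IsConvexCyclic (-T)

lemma exists_of_basis {H : Type*} [NormedAddCommGroup H] [InnerProductSpace ℂ H]
    [CompleteSpace H] (b : HilbertBasis ℕ ℂ H) : HasExample H := by
  refine ⟨-(model b).B, ⟨_, (model b).dense_neg_B⟩, ?_⟩
  rintro ⟨x, hx⟩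
  rw [neg_neg] at hx
  obtain ⟨f, hf, C, hC⟩ := (model b).exists_bounded x
  exact not_dense _ x f hf C hC hx

/-- There is a convex-cyclic bounded operator `T` on a complex Hilbert space such that `-T` is not
convex-cyclic. Such an operator exists on `ℓ²(ℕ)`, and on every complex Hilbert space which has a
Hilbert basis indexed by `ℕ`. -/
theorem result :
    HasExample (lp (fun _ : ℕ => ℂ) 2) ∧
    ∀ (H : Type*) [NormedAddCommGroup H] [InnerProductSpace ℂ H] [CompleteSpace H],
      Nonempty (HilbertBasis ℕ ℂ H) → HasExample H :=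
  ⟨exists_of_basis default, fun _ _ _ _ ⟨b⟩ => exists_of_basis b⟩

end Pool.Agent.Results.MP_cfec29_an.NegativeNotConvexCyclic
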